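import Pool.Agent.P.MP_f5d68c_lc.Nar.Model

open Cardinal Filter Set Pool.Agent.P.MP_f5d68c_lc Pool.Agent.P.MP_f5d68c_lc.Nar

universe u

namespace Pool.Agent.Results.MP_f5d68c_lc.NarrowGuessing

theorem result (μ l : Cardinal.{u}) (hμ : μ.IsSingular) (hsl : μ.IsStrongLimit) (R : ZFSet.{u})
    (hR : (∃ a : Ordinal.{u}, R = ZFSet.vonNeumann a) ∨
      ∃ θ : Cardinal.{u}, θ.IsRegular ∧ (R : Set ZFSet.{u}) = H θ)
    (hμR : (Order.succ μ).ord.toZFSet ∈ R) (hl : ∀ X ∈ R, X.card ≤ l)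
    (U : Ultrafilter (Set (Sm (lift.{u + 1} μ) R)))
    (hU : NormalFine (lift.{u + 1} (Order.succ μ.ord.cof)) (lift.{u + 1} (Order.succ μ)) U)
    (h : ∀ Y : ZFSet.{u}, Y.card ≤ l → NS (lift.{u + 1} μ) Y) (A : Set ZFSet.{u}) :
    ∀ᶠ x in (U : Filter (Set (Sm (lift.{u + 1} μ) R))),
      Elem (hull x) R A ∧ Kappa (hull x) (Order.succ μ).ord ∧
        Guessing (Order.succ μ) (hull x) R := by
  have hS := suitable_of hR
  have hm : ℵ₀ ≤ lift.{u + 1} μ := by simpa using hμ.aleph0_le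
  have hμl : Order.succ μ ≤ l := by simpa using hl _ hμR
  refine (@ae_good R μ hμ (strong_lift hsl) hS hμR _ _ (lift_lt.2 (Order.lt_succ _))
    (lift_succ μ).le (fun w => ?_) U hU lang (str (R : Set ZFSet.{u}) A) lang_card).mono
    fun x hx => good_iff hS A hx
  obtain ⟨Y, h1, h2, h3⟩ := exists_cover hμ.aleph0_le hS ((Order.le_succ μ).trans hμl) hl w
  exact ⟨Y, h1, h2, (h Y h3).apx hm (strong_lift hsl) _⟩

end Pool.Agent.Results.MP_f5d68c_lc.NarrowGuessing
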