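import Pool.Agent.P.MP_f5d68c_lc.Seg

open Pool.Agent.P.MP_f5d68c_lc

universe u

/-- If `M` is `δ`-guessing, `κ_M = μ⁺` and `δ < μ`, then `μ` is regular. -/
theorem Pool.Agent.Results.MP_f5d68c_lc.SmallDelta.result
    (R A M : Set ZFSet.{u}) (μ δ : Cardinal.{u})
    (hR : (∃ α : Ordinal.{u}, R = (ZFSet.vonNeumann α : Set ZFSet.{u})) ∨
      ∃ θ : Cardinal.{u}, θ.IsRegular ∧ R = H θ ∧
        (Cardinal.mk M < Cardinal.lift.{u + 1} θ ∨ 2 ^ μ < θ))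
    (hM : Elem M R A) (hμ : Cardinal.aleph0 ≤ μ) (hκ : Kappa M (Order.succ μ).ord)
    (hδ : δ < μ) (hg : Guessing δ M R) : μ.IsRegular := by
  rcases hR with ⟨α, rfl⟩ | ⟨θ, hθ, rfl, hs⟩
  · exact regular_V hM hμ hκ hδ hg
  · exact regular_H hθ hs hM hμ hκ hδ hg
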