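import Pool.Agent.P.MP_f5d68c_lc.Nar.Model

open Cardinal Filter Set Pool.Agent.P.MP_f5d68c_lc Pool.Agent.P.MP_f5d68c_lc.Nar

universe u

namespace Pool.Agent.Results.MP_f5d68c_lc.UltrapowerCriterion

theorem result (μ κ : Cardinal.{u}) (hμ : μ.IsSingular) (hsl : μ.IsStrongLimit)
    (hκ : μ.ord.cof < κ) (hκμ : κ ≤ μ) (R : ZFSet.{u})
    (hR : (∃ a : Ordinal.{u}, R = ZFSet.vonNeumann a) ∨
      ∃ θ : Cardinal.{u}, θ.IsRegular ∧ (R : Set ZFSet.{u}) = H θ)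
    (hμR : (Order.succ μ).ord.toZFSet ∈ R)
    (hcl : ∀ w : Sm (lift.{u + 1} μ) R, ∃ Y ∈ R, ∀ X ∈ w.1, X.1 ⊆ Y)
    (U : Ultrafilter (Set (Sm (lift.{u + 1} μ) R)))
    (hU : NormalFine (lift.{u + 1} κ) (lift.{u + 1} κ) U) :
    List.TFAE
      [∀ X ∈ R, APX (lift.{u + 1} κ) (lift.{u + 1} μ) X,
       ∀ A : Set ZFSet.{u}, ∀ᶠ x in (U : Filter (Set (Sm (lift.{u + 1} μ) R))),
         Elem (hull x) R A ∧ Kappa (hull x) (Order.succ μ).ord ∧
           Guessing (Order.succ μ) (hull x) R,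
       ∀ F : Sm (lift.{u + 1} μ) R → Sm (lift.{u + 1} μ) R → Sm (lift.{u + 1} μ) R,
         ∃ x : Set (Sm (lift.{u + 1} μ) R), x.Nonempty ∧ #x < lift.{u + 1} κ ∧
           (∀ z ∈ x, ∀ z' ∈ x, F z z' ∈ x) ∧ Guessing (Order.succ μ) (hull x) R] := by
  have hS := suitable_of hR
  tfae_have 1 → 2 := fun h A =>
    (@ae_good R μ hμ (strong_lift hsl) hS hμR _ _ (lift_lt.2 hκ)
      ((lift_le.2 hκμ).trans (Order.le_succ _))
      (fun w => by
        obtain ⟨Y, hY, hw⟩ := hcl w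
        exact ⟨Y, hS.trans _ hY, hw, h Y hY⟩) U hU lang (str (R : Set ZFSet.{u}) A)
      lang_card).mono fun x hx => good_iff hS A hx
  tfae_have 2 → 3 := fun h F => by
    have h2 := hU.diag fun z => hU.closed (F z)
    obtain ⟨x, hx1, hx2, hx3, hx4⟩ :=
      ((h ∅).and (h2.and (hU.small.and (hU.fine ⟨∅, by simp⟩)))).exists
    exact ⟨x, ⟨_, hx4⟩, hx3, hx2, hx1.2.2⟩
  tfae_have 3 → 1 := fun h X hX =>
    apx_of_stat hμ (strong_lift hsl) hS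
      (by rw [← lift_ord, ← Ordinal.lift_cof]; exact lift_lt.2 hκ)
      (fun F => by
        obtain ⟨x, h1, h2, h3, h4⟩ := h F
        exact ⟨x, h1, h2, h3, hull_eq x ▸ (gs_iff hS.trans (hull_sub x) _).2 h4⟩) hX
  tfae_finish

end Pool.Agent.Results.MP_f5d68c_lc.UltrapowerCriterion
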